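import Pool.Agent.ASO.StmtsH2

/-!
# Squad ASO, row HCO: the conclusions of block H for a free action
-/

open scoped BigOperators

noncomputable section

namespace Pool.Agent.PP.SO.H77

open Pool.Agent.Helper51_AWC Pool.Agent.Helper79_WRA Pool.Agent.PP Pool.Agent.PP.KF
open Pool.Agent.PP.K9 Pool.Agent.PP.K9.H97 Pool.Agent.PP.H75 Pool.Agent.PP.T3

attribute [local instance] Ideal.Quotient.field

/-! ### numbers -/

theorem nat_not_mem {ℓ : ℕ} [Fact ℓ.Prime] {M : Ideal (integralClosure ℤ ℂ)} [M.IsMaximal]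
    (hℓ : (ℓ : integralClosure ℤ ℂ) ∈ M) {y : ℕ} (hy : ¬ ℓ ∣ y) :
    (y : integralClosure ℤ ℂ) ∉ M := by
  intro hm
  have hp : Nat.Prime ℓ := Fact.out
  have hc : IsCoprime (ℓ : ℤ) (y : ℤ) :=
    Nat.isCoprime_iff_coprime.mpr ((Nat.Prime.coprime_iff_not_dvd hp).mpr hy)
  obtain ⟨a, b, hab⟩ := hc
  have h1 : (a : integralClosure ℤ ℂ) * (ℓ : integralClosure ℤ ℂ) +
      (b : integralClosure ℤ ℂ) * (y : integralClosure ℤ ℂ) = 1 := by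
    have := congrArg (fun t : ℤ => (t : integralClosure ℤ ℂ)) hab
    simpa only [Int.cast_add, Int.cast_mul, Int.cast_natCast, Int.cast_one] using this
  have h2 : (1 : integralClosure ℤ ℂ) ∈ M := by
    rw [← h1]
    exact M.add_mem (M.mul_mem_left _ hℓ) (M.mul_mem_left _ hm)
  exact (Ideal.IsMaximal.ne_top inferInstance : M ≠ ⊤) ((Ideal.eq_top_iff_one M).mpr h2)

theorem div_mem {ℓ : ℕ} [Fact ℓ.Prime] {M : Ideal (integralClosure ℤ ℂ)} [M.IsMaximal]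
    (hℓ : (ℓ : integralClosure ℤ ℂ) ∈ M) {z : ℂ} {x : ℤ} {y : ℕ} (hy : ¬ ℓ ∣ y)
    (h : (y : ℂ) * z = x) : z ∈ RM M := by
  refine ⟨(y : integralClosure ℤ ℂ), (x : integralClosure ℤ ℂ), nat_not_mem hℓ hy, ?_⟩
  push_cast
  exact h

theorem rat_mem {ℓ : ℕ} [Fact ℓ.Prime] {M : Ideal (integralClosure ℤ ℂ)} [M.IsMaximal]
    (hℓ : (ℓ : integralClosure ℤ ℂ) ∈ M) {q : ℚ} (hq : q ∈ SOR.Rl ℓ) : (q : ℂ) ∈ RM M := by
  have hq' : ¬ ℓ ∣ q.den := hq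
  refine div_mem (x := q.num) hℓ hq' ?_
  have h1 : (q.den : ℚ) * q = q.num := by
    rw [mul_comm]
    exact Rat.mul_den_eq_num q
  exact_mod_cast congrArg (fun t : ℚ => (t : ℂ)) h1

/-! ### free actions -/

theorem es_one {V₀ : Type} [CommGroup V₀] (E₀ : Subgroup (MulAut V₀)) : Es E₀ 1 = E₀ := by
  ext σ
  exact ⟨fun h => h.1, fun h => ⟨h, map_one σ⟩⟩

theorem es_bot {ℓ : ℕ} {V₀ : Type} [CommGroup V₀] {E₀ : Subgroup (MulAut V₀)}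
    (hF : Fr ℓ V₀ E₀) {c : V₀} (hc : c ≠ 1) : Es E₀ c = ⊥ := by
  rw [eq_bot_iff]
  intro σ hσ
  rw [Subgroup.mem_bot]
  by_contra h
  exact hc (hF.fr σ hσ.1 h c hσ.2)

theorem rgl {ℓ : ℕ} {V₀ : Type} [CommGroup V₀] {E₀ : Subgroup (MulAut V₀)}
    (hF : Fr ℓ V₀ E₀) {c : V₀} (hc : c ≠ 1) : Rgl E₀ c := by
  refine ⟨hc, fun σ hσ h => ?_⟩
  by_contra h1
  exact hc (hF.fr σ hσ h1 c h)

theorem exists_ne' {ℓ : ℕ} [Fact ℓ.Prime] {V₀ : Type} [CommGroup V₀] [Finite V₀]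
    {E₀ : Subgroup (MulAut V₀)} (hF : Fr ℓ V₀ E₀) : ∃ c : V₀, c ≠ 1 := by
  have hp : Nat.Prime ℓ := Fact.out
  have h1 : 1 < Nat.card V₀ := by
    rw [hF.cd]
    exact Nat.one_lt_pow two_ne_zero hp.one_lt
  have := Finite.one_lt_card_iff_nontrivial.mp h1
  exact _root_.exists_ne 1

theorem nE_ne {ℓ : ℕ} {V₀ : Type} [CommGroup V₀] {E₀ : Subgroup (MulAut V₀)}
    (hF : Fr ℓ V₀ E₀) {c : V₀} (hc : c ≠ 1) : nE E₀ c = Nat.card E₀ := by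
  unfold nE
  rw [es_bot hF hc, Subgroup.card_bot, Nat.div_one]

theorem hco (htz : HTzStmt) (hsm : HSmStmt) (hl12 : HL12Stmt) : HCoStmt := by
  intro ℓ _ M _ hℓ V₀ _ _ E₀ hF G _ _ B hB
  obtain ⟨c₀, hc₀⟩ := exists_ne' hF
  have hp : Nat.Prime ℓ := Fact.out
  have hl0 : (ℓ : ℂ) ^ 2 ≠ 0 := pow_ne_zero 2 (Nat.cast_ne_zero.mpr hp.ne_zero)
  obtain ⟨a1, a2, a3, a4, a5, a6, a7, a8, a9⟩ := hl12 ℓ M hℓ V₀ hF.ex E₀ G B hB
  obtain ⟨⟨b1, b2⟩, b3, b4⟩ := hsm ℓ M hℓ V₀ hF.ex hF.cd E₀ G B hB ⟨c₀, rgl hF hc₀⟩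
  -- the sum over the elements different from `1`
  have hsum : ∑ᶠ c : V₀, Nat.card (Es E₀ c) * L1 B c =
      (Nat.card E₀ : ℂ) * (IrrE M B.e).ncard + ∑ᶠ c ∈ {c : V₀ | c ≠ 1}, L1 B c := by
    have hfin : (Set.univ : Set V₀).Finite := Set.toFinite _
    have e1 : ∑ᶠ c : V₀, (Nat.card (Es E₀ c) : ℂ) * L1 B c =
        ∑ᶠ c ∈ insert (1 : V₀) {c : V₀ | c ≠ 1}, (Nat.card (Es E₀ c) : ℂ) * L1 B c := by
      have e2 : insert (1 : V₀) {c : V₀ | c ≠ 1} = Set.univ := by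
        ext c
        by_cases h : c = 1
        · simp [h]
        · simp [h]
      rw [e2, finsum_mem_univ]
    rw [e1, finsum_mem_insert _ (by simp) (Set.toFinite _), es_one, a9]
    refine congrArg₂ (· + ·) rfl (finsum_mem_congr rfl fun c hc => ?_)
    rw [es_bot hF hc, Subgroup.card_bot, Nat.cast_one, one_mul]
  -- the sum over the powers
  have hpow : ∀ c : V₀, ∑ t ∈ Finset.Icc 1 (ℓ - 1), L1 B (c ^ t) = ((ℓ : ℂ) - 1) * L1 B c := by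
    intro c
    have e1 : ∀ t ∈ Finset.Icc 1 (ℓ - 1), L1 B (c ^ t) = L1 B c := by
      intro t ht
      rw [Finset.mem_Icc] at ht
      refine a3 c t fun hd => ?_
      have := Nat.le_of_dvd (by omega) hd
      have := hp.one_lt
      omega
    rw [Finset.sum_congr rfl e1, Finset.sum_const, Nat.card_Icc, nsmul_eq_mul]
    have e2 : ((ℓ - 1 + 1 - 1 : ℕ) : ℂ) = (ℓ : ℂ) - 1 := by
      have := hp.one_lt
      have e3 : ℓ - 1 + 1 - 1 = ℓ - 1 := by omega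
      rw [e3, Nat.cast_sub (by omega), Nat.cast_one]
    rw [e2]
  have hq : ∃ q ∈ SOR.Rl ℓ, (Nat.card E₀ : ℂ) * (IrrE M B.e).ncard +
      ∑ᶠ c ∈ {c : V₀ | c ≠ 1}, L1 B c = ((ℓ ^ 2 * q : ℚ) : ℂ) := by
    obtain ⟨q, hq, h⟩ := b4
    exact ⟨q, hq, hsum ▸ h⟩
  have hdiv : ∀ (z : ℂ) (q : ℚ), q ∈ SOR.Rl ℓ → z = ((ℓ ^ 2 * q : ℚ) : ℂ) →
      z / (ℓ : ℂ) ^ 2 ∈ RM M := by
    intro z q hq h
    have e1 : z / (ℓ : ℂ) ^ 2 = (q : ℂ) := by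
      rw [h, Rat.cast_mul, Rat.cast_pow, Rat.cast_natCast]
      exact mul_div_cancel_left₀ _ hl0
    rw [e1]
    exact rat_mem hℓ hq
  refine ⟨?_, b2, b1, a1, a2, a3, a4, fun c d σ hσ τ hτ => ⟨a5 c σ hσ, a6 c d σ hσ τ hτ⟩, a9, ?_,
    hq, ?_⟩
  · intro χ hχ
    obtain ⟨x, y, hx, hy, h⟩ := htz ℓ M hℓ V₀ hF.ex hF.cd E₀ G B hB c₀ (rgl hF hc₀) χ hχ
    have h1 : χ 1 ≠ 0 := irr_one_ne hχ.1
    refine div_mem (x := (x : ℤ)) hℓ hy ?_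
    rw [← mul_div_assoc, h, Int.cast_natCast]
    rw [mul_div_assoc, mul_comm, div_mul_cancel₀ _ (mul_ne_zero hl0 h1)]
  · obtain ⟨q, hq, h⟩ := hq
    exact hdiv _ q hq h
  · intro c d hc hd
    have key : ∃ q ∈ SOR.Rl ℓ,
        ∑ t ∈ Finset.Icc 1 (ℓ - 1), ∑ s ∈ Finset.Icc 1 (ℓ - 1), L2 B (c ^ t) (d ^ s) +
        (Nat.card E₀ : ℂ) * (ℓ - 1) * (L1 B c + L1 B d) +
        (Nat.card E₀ : ℂ) ^ 2 * (IrrE M B.e).ncard = ((ℓ ^ 2 * q : ℚ) : ℂ) := by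
      obtain ⟨q, hq, h⟩ := b3 c d hc hd
      refine ⟨q, hq, ?_⟩
      rw [← h, nE_ne hF hc, nE_ne hF hd, hpow, hpow]
      ring
    refine ⟨?_, key⟩
    obtain ⟨q, hq, h⟩ := key
    exact hdiv _ q hq h

end Pool.Agent.PP.SO.H77
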